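import Pool.Agent.H547.P3.R90323e

set_option autoImplicit false

/-!
# `S(p) ≡ 0 (mod p³)` for `p ≡ 1, 2, 4 (mod 7)`

With `α, β = (5 ± √-7)/2` the sum is `(F(z₂) - F(z₁)) / √-7`, `F(z) = ∑_{k<p} C(2k,k)³ z^k`,
`z₁, z₂ = (47 ± 45 √-7)/8192`. Both points are mapped to `-1/15³` by `w = z²/(1-16z)³`, and they are exchanged by
`z ↦ 1/(4096 z)`. We prove modulo `p³` a transformation from `F` at `z` to `∑ (6k)!/((3k)! k!³) w^k` which takes into account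
the two derivatives (coming from the expansion of `C(2(pκ+j), pκ+j)³ / C(2κ,κ)³` in powers of `pκ`), and the behaviour under
`z ↦ 1/(4096 z)`. At these two points this forces the derivatives to vanish, and then `F(z₁) = F(z₂)`.
-/

open Finset

namespace Pool.Agent.Results.MP_90323e_nt.RecurrenceModPCubed

/-- `a(0) = 0`, `a(1) = 1`, `a(n+2) = 5 a(n+1) - 8 a(n)` -/
def a : ℕ → ℤ
  | 0 => 0
  | 1 => 1
  | (n + 2) => 5 * a (n + 1) - 8 * a n

/-- the sum `S(p)` -/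
def S (p : ℕ) : ℚ := ∑ k ∈ range p, (a (4 * k) : ℚ) * ((2 * k).choose k : ℚ) ^ 3 / (-4096) ^ k

theorem a_eq : ∀ n : ℕ, a n = Pool.Agent.H547.P3.R90323e.a n ∧ a (n + 1) = Pool.Agent.H547.P3.R90323e.a (n + 1)
  | 0 => ⟨rfl, rfl⟩
  | (n + 1) => ⟨(a_eq n).2, by
      rw [a, Pool.Agent.H547.P3.R90323e.a, (a_eq n).1, (a_eq n).2]⟩

theorem result (p : ℕ) (hp : p.Prime) (hodd : p ≠ 2) (h : p % 7 = 1 ∨ p % 7 = 2 ∨ p % 7 = 4) :
    ∃ u : ℚ, ¬ p ∣ u.den ∧ S p = (p : ℚ) ^ 3 * u := by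
  have e : S p = Pool.Agent.H547.P3.R90323e.S p := by
    unfold S Pool.Agent.H547.P3.R90323e.S
    exact sum_congr rfl fun k _ => by rw [(a_eq (4 * k)).1]
  rw [e]
  exact Pool.Agent.H547.P3.R90323e.main p hp hodd h

end Pool.Agent.Results.MP_90323e_nt.RecurrenceModPCubed
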